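import Mathlib

open MvPolynomial

namespace Pool.Agent.H20.WF.Bez

set_option linter.unusedSectionVars false
set_option linter.unusedSimpArgs false

variable {σ K : Type*} [Fintype σ] [DecidableEq σ] [Field K]

/-- Shift and scale: `P(x + z h)` as a polynomial in `z`. -/
noncomputable def sh (x : σ → K) : MvPolynomial σ K →ₐ[K] Polynomial (MvPolynomial σ K) :=
  MvPolynomial.aeval (fun j => Polynomial.C (C (x j)) + Polynomial.X * Polynomial.C (X j))

lemma sh_C (x : σ → K) (a : K) : sh x (C a) = Polynomial.C (C a) := by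
  simp [sh, MvPolynomial.algebraMap_eq, Polynomial.algebraMap_apply]

lemma sh_X (x : σ → K) (j : σ) :
    sh x (X j) = Polynomial.C (C (x j)) + Polynomial.X * Polynomial.C (X j) := by
  simp [sh]

lemma sh_coeff_zero (x : σ → K) (P : MvPolynomial σ K) :
    (sh x P).coeff 0 = C (eval x P) := by
  induction P using MvPolynomial.induction_on with
  | C a => simp [sh_C]
  | add p q hp hq => simp [map_add, hp, hq]
  | mul_X p j hp =>
    rw [map_mul, Polynomial.mul_coeff_zero, hp, sh_X]
    simp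

lemma sh_coeff_one (x : σ → K) (P : MvPolynomial σ K) :
    (sh x P).coeff 1 = ∑ j, C (eval x (pderiv j P)) * X j := by
  induction P using MvPolynomial.induction_on with
  | C a => simp [sh_C, Polynomial.coeff_C]
  | add p q hp hq =>
    simp only [map_add, Polynomial.coeff_add, hp, hq, ← Finset.sum_add_distrib]
    exact Finset.sum_congr rfl fun j _ => by ring
  | mul_X p i hp =>
    rw [map_mul, sh_X, mul_add, Polynomial.coeff_add, Polynomial.coeff_mul_C, hp,
      ← mul_assoc, Polynomial.coeff_mul_C, Polynomial.coeff_mul_X, sh_coeff_zero]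
    have : ∀ j, C (eval x (pderiv j (p * X i))) * (X j : MvPolynomial σ K)
        = C (eval x (pderiv j p)) * X j * C (x i)
          + if j = i then C (eval x p) * X i else 0 := by
      intro j
      by_cases h : j = i
      · subst h
        simp [pderiv_mul]; ring
      · have hji : pderiv j (X i : MvPolynomial σ K) = 0 := pderiv_X_of_ne (Ne.symm h)
        simp [pderiv_mul, h, hji]; ring
    rw [Finset.sum_congr rfl fun j _ => this j, Finset.sum_add_distrib, Finset.sum_mul]
    simp


/-- linear part of `F i` at `x`. -/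
noncomputable def lin (x : σ → K) (P : MvPolynomial σ K) : MvPolynomial σ K :=
  ∑ j, C (eval x (pderiv j P)) * X j

lemma sh_eq (x : σ → K) (P : MvPolynomial σ K) (h : eval x P = 0) :
    ∃ G : Polynomial (MvPolynomial σ K), sh x P = Polynomial.X * G ∧ G.coeff 0 = lin x P := by
  have h0 : (sh x P).coeff 0 = 0 := by rw [sh_coeff_zero, h, C_0]
  obtain ⟨G, hG⟩ := Polynomial.X_dvd_iff.2 h0
  refine ⟨G, hG, ?_⟩
  have := sh_coeff_one x P
  rw [hG, Polynomial.coeff_X_mul] at this
  rw [this, lin]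

lemma sh_prod (x : σ → K) (F : σ → MvPolynomial σ K) (h : ∀ i, eval x (F i) = 0)
    (b : MvPolynomial σ K) (β : σ → ℕ) :
    ∃ G : Polynomial (MvPolynomial σ K), sh x (b * ∏ i, F i ^ β i)
      = Polynomial.X ^ (∑ i, β i) * G ∧ G.coeff 0 = C (eval x b) * ∏ i, lin x (F i) ^ β i := by
  choose G hG hG0 using fun i => sh_eq x (F i) (h i)
  refine ⟨sh x b * ∏ i, G i ^ β i, ?_, ?_⟩
  · rw [map_mul, map_prod]
    have : ∀ i, sh x (F i ^ β i) = Polynomial.X ^ β i * G i ^ β i := fun i => by
      rw [map_pow, hG, mul_pow]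
    rw [Finset.prod_congr rfl fun i _ => this i, Finset.prod_mul_distrib,
      Finset.prod_pow_eq_pow_sum]
    ring
  · rw [Polynomial.mul_coeff_zero, sh_coeff_zero]
    congr 1
    rw [Polynomial.coeff_zero_prod]
    refine Finset.prod_congr rfl fun i _ => ?_
    rw [Polynomial.coeff_zero_eq_eval_zero, Polynomial.eval_pow,
      ← Polynomial.coeff_zero_eq_eval_zero, hG0]

/-- the exponents of total degree at most `T`. -/
def ex (σ : Type*) [Fintype σ] [DecidableEq σ] (T : ℕ) : Finset (σ → ℕ) :=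
  (Fintype.piFinset fun _ => Finset.range (T + 1)).filter fun β => ∑ i, β i ≤ T

lemma mem_ex (T : ℕ) (β : σ → ℕ) : β ∈ ex σ T ↔ ∑ i, β i ≤ T := by
  simp only [ex, Finset.mem_filter, Fintype.mem_piFinset, Finset.mem_range, and_iff_right_iff_imp]
  intro h i
  have := Finset.single_le_sum (f := β) (fun _ _ => Nat.zero_le _) (Finset.mem_univ i)
  omega

lemma exists_dual [DecidableEq K] (S : Finset (σ → K)) :
    ∃ b : (σ → K) → MvPolynomial σ K, ∀ x ∈ S, ∀ y ∈ S, eval y (b x) = if x = y then 1 else 0 := by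
  have key : ∀ x y : σ → K, ∃ l : MvPolynomial σ K, eval x l = 1 ∧ (x ≠ y → eval y l = 0) := by
    intro x y
    by_cases h : x = y
    · exact ⟨1, by simp, fun h' => absurd h h'⟩
    · obtain ⟨j, hj⟩ := Function.ne_iff.1 h
      have hj' : x j - y j ≠ 0 := sub_ne_zero.2 hj
      refine ⟨C ((x j - y j)⁻¹) * (X j - C (y j)), ?_, fun _ => by simp⟩
      simp [hj']
  choose l hl1 hl0 using key
  refine ⟨fun x => ∏ y ∈ S.erase x, l x y, fun x hx y hy => ?_⟩
  rw [map_prod]
  split_ifs with h
  · subst h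
    exact Finset.prod_eq_one fun z _ => hl1 _ _
  · exact Finset.prod_eq_zero (Finset.mem_erase.2 ⟨Ne.symm h, hy⟩) (hl0 x y h)

lemma lin_indep_lin (x : σ → K) (F : σ → MvPolynomial σ K)
    (hdet : (Matrix.of fun i j => eval x (pderiv j (F i))).det ≠ 0) (B : Finset (σ → ℕ))
    (g : (σ → ℕ) → K) (h : ∑ β ∈ B, C (g β) * ∏ i, lin x (F i) ^ β i = 0) :
    ∀ β ∈ B, g β = 0 := by
  set A : Matrix σ σ K := Matrix.of fun i j => eval x (pderiv j (F i)) with hA
  have hu : IsUnit A.det := isUnit_iff_ne_zero.2 hdet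
  -- substitution
  let φ : MvPolynomial σ K →ₐ[K] MvPolynomial σ K :=
    MvPolynomial.aeval fun j => ∑ k, C (A⁻¹ j k) * X k
  have hφ : ∀ i, φ (lin x (F i)) = X i := by
    intro i
    have e1 : φ (lin x (F i)) = ∑ j, C (A i j) * ∑ k, C (A⁻¹ j k) * X k := by
      simp only [lin, map_sum, map_mul, φ, MvPolynomial.aeval_X, MvPolynomial.algHom_C,
        MvPolynomial.algebraMap_eq]
      rfl
    rw [e1]
    have e2 : ∑ j, C (A i j) * ∑ k, C (A⁻¹ j k) * (X k : MvPolynomial σ K)
        = ∑ k, C ((A * A⁻¹) i k) * X k := by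
      simp only [Matrix.mul_apply, map_sum, map_mul, Finset.mul_sum, Finset.sum_mul]
      rw [Finset.sum_comm]
      exact Finset.sum_congr rfl fun _ _ => Finset.sum_congr rfl fun _ _ => by ring
    rw [e2, Matrix.mul_nonsing_inv _ hu]
    rw [Finset.sum_eq_single i]
    · simp
    · intro k _ hk; simp [Matrix.one_apply, Ne.symm hk]
    · simp
  have h2 := congrArg φ h
  rw [map_zero, map_sum] at h2
  have h3 : ∀ β ∈ B, φ (C (g β) * ∏ i, lin x (F i) ^ β i)
      = monomial (Finsupp.equivFunOnFinite.symm β) (g β) := by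
    intro β _
    rw [map_mul, map_prod]
    have : ∀ i, φ (lin x (F i) ^ β i) = X i ^ β i := fun i => by rw [map_pow, hφ]
    rw [Finset.prod_congr rfl fun i _ => this i, MvPolynomial.monomial_eq,
      MvPolynomial.algHom_C, MvPolynomial.algebraMap_eq]
    congr 1
    rw [Finsupp.prod_fintype _ _ (fun i => pow_zero _)]
    rfl
  rw [Finset.sum_congr rfl h3] at h2
  intro β hβ
  have h4 := congrArg (MvPolynomial.coeff (Finsupp.equivFunOnFinite.symm β)) h2
  rw [MvPolynomial.coeff_sum, MvPolynomial.coeff_zero, Finset.sum_eq_single β] at h4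
  · simpa using h4
  · intro γ _ hγ
    rw [MvPolynomial.coeff_monomial, if_neg]
    intro h5
    exact hγ (Finsupp.equivFunOnFinite.symm.injective h5)
  · intro h5; exact absurd hβ h5

/-- the family `b x * F ^ β` is linearly independent. -/
lemma indep [DecidableEq K] (F : σ → MvPolynomial σ K) (S : Finset (σ → K))
    (h0 : ∀ x ∈ S, ∀ i, eval x (F i) = 0)
    (hdet : ∀ x ∈ S, (Matrix.of fun i j => eval x (pderiv j (F i))).det ≠ 0)
    (b : (σ → K) → MvPolynomial σ K)
    (hb : ∀ x ∈ S, ∀ y ∈ S, eval y (b x) = if x = y then 1 else 0)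
    (T : ℕ) (g : (σ → K) → (σ → ℕ) → K)
    (h : ∑ x ∈ S, ∑ β ∈ ex σ T, C (g x β) * (b x * ∏ i, F i ^ β i) = 0) :
    ∀ x ∈ S, ∀ β ∈ ex σ T, g x β = 0 := by
  have key : ∀ t : ℕ, ∀ x ∈ S, ∀ β ∈ ex σ T, ∑ i, β i = t → g x β = 0 := by
    intro t
    induction t using Nat.strong_induction_on with
    | _ t ih =>
      intro x hx β hβ hβt
      have h1 := congrArg (fun P => (sh x P).coeff t) h
      simp only [map_zero, Polynomial.coeff_zero, map_sum, map_mul (sh x) (C _),
        Polynomial.finsetSum_coeff, sh_C, Polynomial.coeff_C_mul] at h1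
      have h2 : ∀ y ∈ S, ∀ γ ∈ ex σ T, C (g y γ) * (sh x (b y * ∏ i, F i ^ γ i)).coeff t
          = if ∑ i, γ i = t then
              (if y = x then C (g y γ) * ∏ i, lin x (F i) ^ γ i else 0) else 0 := by
        intro y hy γ hγ
        obtain ⟨G, hG, hG0⟩ := sh_prod x F (h0 x hx) (b y) γ
        rcases lt_trichotomy (∑ i, γ i) t with hlt | heq | hgt
        · rw [ih _ hlt y hy γ hγ rfl, C_0, zero_mul, if_neg hlt.ne]
        · rw [if_pos heq, hG, heq, Polynomial.coeff_X_pow_mul', if_pos le_rfl, Nat.sub_self, hG0,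
            hb y hy x hx]
          split_ifs <;> simp
        · rw [if_neg hgt.ne', hG, Polynomial.coeff_X_pow_mul', if_neg (by omega), mul_zero]
      rw [Finset.sum_congr rfl fun y hy => Finset.sum_congr rfl fun γ hγ => h2 y hy γ hγ] at h1
      rw [Finset.sum_comm] at h1
      have h3 : ∑ γ ∈ (ex σ T).filter (fun γ => ∑ i, γ i = t),
          C (g x γ) * ∏ i, lin x (F i) ^ γ i = 0 := by
        rw [Finset.sum_filter]
        refine Eq.trans (Finset.sum_congr rfl fun γ _ => ?_) h1
        split_ifs with hγ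
        · rw [Finset.sum_ite_eq' S x (fun y => C (g y γ) * ∏ i, lin x (F i) ^ γ i), if_pos hx]
        · simp
      exact lin_indep_lin x F (hdet x hx) _ (g x) h3 β (Finset.mem_filter.2 ⟨hβ, hβt⟩)
  intro x hx β hβ
  exact key _ x hx β hβ rfl

lemma card_ex_pos (T : ℕ) : 0 < (ex σ T).card :=
  Finset.card_pos.2 ⟨fun _ => 0, (mem_ex T _).2 (by simp)⟩

lemma ex_mono {a b : ℕ} (h : a ≤ b) : ex σ a ⊆ ex σ b := fun β hβ =>
  (mem_ex b β).2 (((mem_ex a β).1 hβ).trans h)

lemma card_ex_le (N : ℕ) : (ex σ N).card ≤ (N + 1) ^ Fintype.card σ := by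
  refine (Finset.card_filter_le _ _).trans ?_
  rw [Fintype.card_piFinset]
  simp

lemma card_ex_div (N D : ℕ) (hD : 0 < D) :
    (ex σ N).card ≤ D ^ Fintype.card σ * (ex σ (N / D)).card := by
  have h : (ex σ N).card ≤ (ex σ (N / D) ×ˢ (Fintype.piFinset fun _ : σ => Finset.range D)).card := by
    refine Finset.card_le_card_of_injOn (fun β => (fun i => β i / D, fun i => β i % D)) ?_ ?_
    · intro β hβ
      have hβ' := (mem_ex N β).1 (Finset.mem_coe.1 hβ)
      simp only [Finset.coe_product, Set.mem_prod, Finset.mem_coe, Fintype.mem_piFinset,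
        Finset.mem_range]
      refine ⟨(mem_ex _ _).2 ?_, fun i => Nat.mod_lt _ hD⟩
      rw [Nat.le_div_iff_mul_le hD, Finset.sum_mul]
      exact (Finset.sum_le_sum fun i _ => Nat.div_mul_le_self _ _).trans hβ'
    · intro β _ γ _ hβγ
      simp only [Prod.mk.injEq] at hβγ
      funext i
      have h1 := congrFun hβγ.1 i
      have h2 := congrFun hβγ.2 i
      rw [← Nat.div_add_mod (β i) D, ← Nat.div_add_mod (γ i) D, h1, h2]
  refine h.trans (le_of_eq ?_)
  rw [Finset.card_product, Fintype.card_piFinset]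
  simp [mul_comm]

lemma growth (m M c s : ℕ) (a : ℕ → ℕ) (ha0 : 0 < a 0) (ha : ∀ N, a N ≤ (N + 1) ^ s)
    (h : ∀ T, m * a T ≤ M * a (T + c)) : m ≤ M := by
  by_contra hlt
  push Not at hlt
  have h1 : ∀ k, (M + 1) ^ k ≤ M ^ k * a (c * k) := by
    intro k
    induction k with
    | zero => simpa using Nat.succ_le_of_lt ha0
    | succ k ih =>
      calc (M + 1) ^ (k + 1) = (M + 1) ^ k * (M + 1) := pow_succ _ _
        _ ≤ M ^ k * a (c * k) * (M + 1) := Nat.mul_le_mul_right _ ih
        _ = M ^ k * ((M + 1) * a (c * k)) := by ring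
        _ ≤ M ^ k * (m * a (c * k)) := by gcongr; omega
        _ ≤ M ^ k * (M * a (c * k + c)) := Nat.mul_le_mul_left _ (h _)
        _ = M ^ (k + 1) * a (c * (k + 1)) := by rw [mul_add, mul_one]; ring
  have hMpos : 0 < M := by
    rcases Nat.eq_zero_or_pos M with h0 | h0
    · have := h1 1
      simp [h0] at this
    · exact h0
  have hMR : (0 : ℝ) < M := by exact_mod_cast hMpos
  have h2 : ∀ k : ℕ, 1 ≤ k → ((M + 1 : ℝ) / M) ^ k ≤ ((c : ℝ) + 1) ^ s * (k : ℝ) ^ s := by
    intro k hk
    rw [div_pow, div_le_iff₀ (by positivity)]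
    have h3 : (M + 1) ^ k ≤ ((c + 1) * k) ^ s * M ^ k := by
      refine (h1 k).trans ?_
      rw [mul_comm]
      gcongr
      refine (ha _).trans ?_
      gcongr
      nlinarith
    rw [← mul_pow]
    exact_mod_cast h3
  have hr : (1 : ℝ) < (M + 1 : ℝ) / M := by
    rw [lt_div_iff₀ hMR]; linarith
  have h3 := tendsto_pow_const_div_const_pow_of_one_lt s hr
  have hc : (0 : ℝ) < 1 / (((c : ℝ) + 1) ^ s) := by positivity
  have h4 := (h3.eventually (gt_mem_nhds hc)).and (Filter.eventually_ge_atTop 1)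
  obtain ⟨k, hk1, hk2⟩ := h4.exists
  have h5 := h2 k hk2
  have hrk : (0 : ℝ) < ((M + 1 : ℝ) / M) ^ k := by positivity
  rw [div_lt_div_iff₀ hrk (by positivity)] at hk1
  linarith [mul_comm ((k : ℝ) ^ s) (((c : ℝ) + 1) ^ s)]

/-- key inequality -/
lemma card_mul_le [DecidableEq K] (F : σ → MvPolynomial σ K) (S : Finset (σ → K)) (D : ℕ)
    (hD : ∀ i, (F i).totalDegree ≤ D)
    (h0 : ∀ x ∈ S, ∀ i, eval x (F i) = 0)
    (hdet : ∀ x ∈ S, (Matrix.of fun i j => eval x (pderiv j (F i))).det ≠ 0) :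
    ∃ c : ℕ, ∀ T, S.card * (ex σ T).card ≤ (ex σ (c + D * T)).card := by
  obtain ⟨b, hb⟩ := exists_dual S
  refine ⟨S.sup fun x => (b x).totalDegree, fun T => ?_⟩
  set c := S.sup fun x => (b x).totalDegree with hc
  set N := c + D * T with hN
  have hdeg : ∀ x ∈ S, ∀ β ∈ ex σ T, (b x * ∏ i, F i ^ β i).totalDegree ≤ N := by
    intro x hx β hβ
    refine (totalDegree_mul _ _).trans (Nat.add_le_add ?_ ?_)
    · exact Finset.le_sup (f := fun x => (b x).totalDegree) hx
    · refine (totalDegree_finsetProd _ _).trans ?_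
      calc ∑ i, (F i ^ β i).totalDegree ≤ ∑ i, β i * D := Finset.sum_le_sum fun i _ =>
            (totalDegree_pow _ _).trans (Nat.mul_le_mul_left _ (hD i))
        _ = (∑ i, β i) * D := by rw [Finset.sum_mul]
        _ ≤ T * D := Nat.mul_le_mul_right _ ((mem_ex T β).1 hβ)
        _ = D * T := mul_comm _ _
  let Φ : (↥S × ↥(ex σ T) → K) →ₗ[K] (↥(ex σ N) → K) :=
    { toFun := fun g γ => ∑ p, g p * coeff (Finsupp.equivFunOnFinite.symm γ.1)
        (b p.1.1 * ∏ i, F i ^ p.2.1 i)
      map_add' := fun g g' => by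
        funext γ; simp [add_mul, Finset.sum_add_distrib]
      map_smul' := fun r g => by
        funext γ; simp [Finset.mul_sum, mul_assoc] }
  have hinj : Function.Injective Φ := by
    rw [← LinearMap.ker_eq_bot, LinearMap.ker_eq_bot']
    intro g hg
    classical
    let g' : (σ → K) → (σ → ℕ) → K := fun x β =>
      if h : x ∈ S ∧ β ∈ ex σ T then g (⟨x, h.1⟩, ⟨β, h.2⟩) else 0
    have hsum : ∑ x ∈ S, ∑ β ∈ ex σ T, C (g' x β) * (b x * ∏ i, F i ^ β i)
        = ∑ p : ↥S × ↥(ex σ T), C (g p) * (b p.1.1 * ∏ i, F i ^ p.2.1 i) := by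
      rw [Fintype.sum_prod_type, ← Finset.sum_coe_sort S]
      refine Finset.sum_congr rfl fun x _ => ?_
      rw [← Finset.sum_coe_sort (ex σ T)]
      refine Finset.sum_congr rfl fun β _ => ?_
      simp [g', x.2, β.2]
    have hz : ∑ x ∈ S, ∑ β ∈ ex σ T, C (g' x β) * (b x * ∏ i, F i ^ β i) = 0 := by
      rw [hsum]
      ext m
      rw [coeff_zero, coeff_sum]
      by_cases hm : ∑ i, m i ≤ N
      · have h1 := congrFun hg ⟨fun i => m i, (mem_ex N _).2 hm⟩
        simp only [Φ, LinearMap.coe_mk, AddHom.coe_mk, Pi.zero_apply] at h1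
        have h2 : (Finsupp.equivFunOnFinite.symm fun i => m i) = m := by
          ext i; simp
        rw [h2] at h1
        rw [← h1]
        exact Finset.sum_congr rfl fun p _ => by rw [coeff_C_mul]
      · refine Finset.sum_eq_zero fun p _ => ?_
        rw [coeff_C_mul, coeff_eq_zero_of_totalDegree_lt, mul_zero]
        refine lt_of_le_of_lt (hdeg p.1.1 p.1.2 p.2.1 p.2.2) ?_
        push Not at hm
        refine hm.trans_le (le_of_eq ?_)
        exact (Finsupp.sum_fintype m (fun _ n => n) (fun _ => rfl)).symm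
    have h3 := indep F S h0 hdet b hb T g' hz
    funext p
    have h4 := h3 p.1.1 p.1.2 p.2.1 p.2.2
    have h5 : g' p.1.1 p.2.1 = g p := by
      simp only [g']
      rw [dif_pos ⟨p.1.2, p.2.2⟩]
    rw [h5] at h4
    exact h4
  have := LinearMap.finrank_le_finrank_of_injective hinj
  rw [Module.finrank_fintype_fun_eq_card, Module.finrank_fintype_fun_eq_card,
    Fintype.card_prod, Fintype.card_coe, Fintype.card_coe, Fintype.card_coe] at this
  exact this

/-- **Nonsingular Bezout.** `s` polynomials of degree at most `D` in `s` variables over a field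
have at most `D ^ s` common zeros with invertible Jacobian. -/
theorem bezout (F : σ → MvPolynomial σ K) (S : Finset (σ → K)) (D : ℕ)
    (hD : ∀ i, (F i).totalDegree ≤ D)
    (h0 : ∀ x ∈ S, ∀ i, eval x (F i) = 0)
    (hdet : ∀ x ∈ S, (Matrix.of fun i j => eval x (pderiv j (F i))).det ≠ 0) :
    S.card ≤ D ^ Fintype.card σ := by
  classical
  rcases Nat.eq_zero_or_pos D with hD0 | hD0
  · rcases isEmpty_or_nonempty σ with hσ | hσ
    · rw [Fintype.card_eq_zero, pow_zero]
      exact Finset.card_le_one.2 fun _ _ _ _ => Subsingleton.elim _ _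
    · have : S = ∅ := by
        rw [Finset.eq_empty_iff_forall_notMem]
        intro x hx
        apply hdet x hx
        have : (Matrix.of fun i j => eval x (pderiv j (F i))) = 0 := by
          ext i j
          have h1 := (totalDegree_eq_zero_iff_eq_C).1 (Nat.le_zero.1 (hD0 ▸ hD i))
          simp only [Matrix.of_apply, Matrix.zero_apply]
          rw [h1, pderiv_C, map_zero]
        rw [this, Matrix.det_zero]
      rw [this]; simp
  · obtain ⟨c, hc⟩ := card_mul_le F S D hD h0 hdet
    refine growth S.card (D ^ Fintype.card σ) c (Fintype.card σ) (fun T => (ex σ T).card)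
      (card_ex_pos 0) card_ex_le fun T => ?_
    refine (hc T).trans ((card_ex_div _ D hD0).trans ?_)
    gcongr
    refine ex_mono ?_
    rw [Nat.add_mul_div_left _ _ hD0, add_comm]
    exact Nat.add_le_add_left (Nat.div_le_self _ _) _

end Pool.Agent.H20.WF.Bez
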