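import Pool.Agent.H20.WF.Bez

open MvPolynomial

namespace Pool.Agent.H20.WF.Bez

set_option linter.unusedSectionVars false

section sel
variable {ρ σ K : Type*} [Fintype σ] [DecidableEq σ] [Field K] [Fintype ρ] [DecidableEq ρ]

/-- chosen bijection of `σ` with a finset of the same cardinality -/
noncomputable def eqv {ρ σ : Type*} [Fintype σ] (I : Finset ρ) (hI : I.card = Fintype.card σ) :
    σ ≃ I :=
  Fintype.equivOfCardEq ((Fintype.card_coe I).trans hI).symm

/-- From rows spanning `K^σ` select a square invertible submatrix. -/
lemma exists_rows (A : Matrix ρ σ K) (hA : ∀ h : σ → K, A.mulVec h = 0 → h = 0) :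
    ∃ I : Finset ρ, ∃ hI : I.card = Fintype.card σ,
      (A.submatrix (fun j => (eqv I hI j : ρ)) id).det ≠ 0 := by
  obtain ⟨κ, a, ha, hsp, hli⟩ := exists_linearIndependent' K (fun i : ρ => A i)
  have hκ : Finite κ := Finite.of_injective a ha
  have := Fintype.ofFinite κ
  classical
  -- the submatrix of rows a
  have hinj : ∀ h : σ → K, (A.submatrix a id).mulVec h = 0 → h = 0 := by
    intro h hh
    apply hA
    funext i
    have hi : A i ∈ Submodule.span K (Set.range ((fun i : ρ => A i) ∘ a)) := by
      rw [hsp]; exact Submodule.subset_span ⟨i, rfl⟩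
    have : ∀ v ∈ Submodule.span K (Set.range ((fun i : ρ => A i) ∘ a)), v ⬝ᵥ h = 0 := by
      intro v hv
      refine Submodule.span_induction ?_ ?_ ?_ ?_ hv
      · rintro _ ⟨k, rfl⟩
        exact congrFun hh k
      · simp
      · intro x y _ _ hx hy; rw [add_dotProduct, hx, hy, add_zero]
      · intro c x _ hx; rw [smul_dotProduct, hx, smul_zero]
    exact this _ hi
  have h1 : Fintype.card κ ≤ Fintype.card σ := by
    have := hli.fintype_card_le_finrank
    rwa [Module.finrank_fintype_fun_eq_card] at this
  have h2 : Fintype.card σ ≤ Fintype.card κ := by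
    have h3 : Function.Injective (Matrix.mulVecLin (A.submatrix a id)) := by
      rw [← LinearMap.ker_eq_bot, LinearMap.ker_eq_bot']
      exact hinj
    have := LinearMap.finrank_le_finrank_of_injective h3
    rwa [Module.finrank_fintype_fun_eq_card, Module.finrank_fintype_fun_eq_card] at this
  have hI : (Finset.univ.image a).card = Fintype.card σ := by
    rw [Finset.card_image_of_injective _ ha, Finset.card_univ]; omega
  refine ⟨Finset.univ.image a, hI, ?_⟩
  set e : σ ≃ ↥(Finset.univ.image a) := eqv _ hI with he
  intro hdet
  obtain ⟨v, hv0, hv⟩ := Matrix.exists_mulVec_eq_zero_iff.2 hdet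
  apply hv0
  apply hinj
  funext k
  have hk : a k ∈ Finset.univ.image a := Finset.mem_image_of_mem _ (Finset.mem_univ _)
  have := congrFun hv (e.symm ⟨a k, hk⟩)
  simpa [Matrix.mulVec, Matrix.submatrix] using this

end sel

section inj
variable {ρ σ K : Type*} [Fintype σ] [DecidableEq σ] [Field K] [Fintype ρ] [DecidableEq ρ]

/-- **(1a)** `r` equations of degree at most `D` in `s` unknowns: at most `2^r D^s` common zeros
with injective Jacobian. -/
theorem bezout_inj (F : ρ → MvPolynomial σ K) (S : Finset (σ → K)) (D : ℕ)
    (hD : ∀ i, (F i).totalDegree ≤ D)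
    (h0 : ∀ x ∈ S, ∀ i, eval x (F i) = 0)
    (hinj : ∀ x ∈ S, ∀ h : σ → K, (∀ i, ∑ j, eval x (pderiv j (F i)) * h j = 0) → h = 0) :
    S.card ≤ 2 ^ Fintype.card ρ * D ^ Fintype.card σ := by
  classical
  let J : (σ → K) → Matrix ρ σ K := fun x => Matrix.of fun i j => eval x (pderiv j (F i))
  let P : Finset ρ → (σ → K) → Prop := fun I x => ∃ hI : I.card = Fintype.card σ,
      ((J x).submatrix (fun j => (eqv I hI j : ρ)) id).det ≠ 0
  have hcov : S ⊆ (Finset.univ : Finset (Finset ρ)).biUnion fun I => S.filter fun x => P I x := by
    intro x hx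
    obtain ⟨I, hI, hd⟩ := exists_rows (J x) (fun h hh => hinj x hx h fun i => congrFun hh i)
    exact Finset.mem_biUnion.2 ⟨I, Finset.mem_univ _, Finset.mem_filter.2 ⟨hx, hI, hd⟩⟩
  refine (Finset.card_le_card hcov).trans ((Finset.card_biUnion_le).trans ?_)
  have : ∀ I ∈ (Finset.univ : Finset (Finset ρ)), (S.filter fun x => P I x).card ≤ D ^ Fintype.card σ := by
    intro I _
    by_cases hI : I.card = Fintype.card σ
    · refine bezout (fun j => F (eqv I hI j)) _ D
        (fun j => hD _) (fun x hx i => h0 x (Finset.mem_filter.1 hx).1 _) ?_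
      intro x hx
      obtain ⟨_, hI', hd⟩ := Finset.mem_filter.1 hx
      exact hd
    · have : (S.filter fun x => P I x) = ∅ := by
        rw [Finset.filter_eq_empty_iff]
        rintro x _ ⟨h, _⟩
        exact hI h
      rw [this]; simp
  refine (Finset.sum_le_sum this).trans (le_of_eq ?_)
  simp

end inj

section surj
variable {ρ σ K : Type*} [Fintype σ] [DecidableEq σ] [Field K] [Fintype ρ] [DecidableEq ρ]

lemma totalDegree_bind₁_le {τ : Type*} (f : σ → MvPolynomial τ K) (hf : ∀ j, (f j).totalDegree ≤ 1)
    (p : MvPolynomial σ K) : (bind₁ f p).totalDegree ≤ p.totalDegree := by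
  conv_lhs => rw [p.as_sum]
  rw [map_sum]
  refine totalDegree_finsetSum_le fun m hm => ?_
  rw [bind₁_monomial]
  refine (totalDegree_mul _ _).trans ?_
  rw [totalDegree_C, zero_add]
  refine (totalDegree_finsetProd _ _).trans ?_
  refine le_trans ?_ (le_totalDegree hm)
  rw [Finsupp.sum]
  refine Finset.sum_le_sum fun j _ => ?_
  refine (totalDegree_pow _ _).trans ?_
  exact (Nat.mul_le_mul_left _ (hf j)).trans (by simp)

lemma pderiv_bind₁ {τ : Type*} (f : σ → MvPolynomial τ K) (i : τ) (p : MvPolynomial σ K) :
    pderiv i (bind₁ f p) = ∑ j, bind₁ f (pderiv j p) * pderiv i (f j) := by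
  classical
  induction p using MvPolynomial.induction_on with
  | C a => simp
  | add p q hp hq => simp only [map_add, hp, hq, add_mul, Finset.sum_add_distrib]
  | mul_X p n hp =>
    rw [map_mul, bind₁_X_right, pderiv_mul, hp]
    have : ∀ j, bind₁ f (pderiv j (p * X n)) * pderiv i (f j)
        = bind₁ f (pderiv j p) * pderiv i (f j) * f n
          + if j = n then bind₁ f p * pderiv i (f n) else 0 := by
      intro j
      rw [pderiv_mul, map_add, map_mul, map_mul, bind₁_X_right]
      by_cases h : j = n
      · subst h; simp; ring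
      · rw [pderiv_X_of_ne (Ne.symm h)]; simp [h]; ring
    rw [Finset.sum_congr rfl fun j _ => this j, Finset.sum_add_distrib, Finset.sum_mul]
    simp

/-- **(1b)** `r` equations of degree at most `D` in `s` unknowns over a finite field with `q`
elements: at most `2^s D^r q^(s-r)` common zeros with surjective Jacobian. -/
theorem bezout_surj [Fintype K] (F : ρ → MvPolynomial σ K) (S : Finset (σ → K)) (D : ℕ)
    (hD : ∀ i, (F i).totalDegree ≤ D)
    (h0 : ∀ x ∈ S, ∀ i, eval x (F i) = 0)
    (hsurj : ∀ x ∈ S, ∀ c : ρ → K, (∀ j, ∑ i, c i * eval x (pderiv j (F i)) = 0) → c = 0) :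
    S.card ≤ 2 ^ Fintype.card σ * D ^ Fintype.card ρ
      * Fintype.card K ^ (Fintype.card σ - Fintype.card ρ) := by
  classical
  let J : (σ → K) → Matrix σ ρ K := fun x => Matrix.of fun j i => eval x (pderiv j (F i))
  let P : Finset σ → (σ → K) → Prop := fun I x => ∃ hI : I.card = Fintype.card ρ,
      ((J x).submatrix (fun j => (eqv I hI j : σ)) id).det ≠ 0
  have hcov : S ⊆ (Finset.univ : Finset (Finset σ)).biUnion fun I => S.filter fun x => P I x := by
    intro x hx
    obtain ⟨I, hI, hd⟩ := exists_rows (J x) (fun c hc => hsurj x hx c fun j => by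
      have := congrFun hc j
      simpa [Matrix.mulVec, dotProduct, J, mul_comm] using this)
    exact Finset.mem_biUnion.2 ⟨I, Finset.mem_univ _, Finset.mem_filter.2 ⟨hx, hI, hd⟩⟩
  refine (Finset.card_le_card hcov).trans ((Finset.card_biUnion_le).trans ?_)
  have : ∀ I ∈ (Finset.univ : Finset (Finset σ)), (S.filter fun x => P I x).card
      ≤ D ^ Fintype.card ρ * Fintype.card K ^ (Fintype.card σ - Fintype.card ρ) := by
    intro I _
    by_cases hI : I.card = Fintype.card ρ
    · let e : ρ ≃ I := eqv I hI
      let res : (σ → K) → (↥(Iᶜ : Finset σ) → K) := fun x j => x j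
      have hmap : ∀ x ∈ S.filter fun x => P I x, res x ∈ (Finset.univ : Finset (↥(Iᶜ : Finset σ) → K)) :=
        fun _ _ => Finset.mem_univ _
      refine (Finset.card_le_mul_card_image_of_maps_to hmap (D ^ Fintype.card ρ) ?_).trans (le_of_eq ?_)
      · intro y _
        let f : σ → MvPolynomial ρ K := fun j => if h : j ∈ I then X (e.symm ⟨j, h⟩)
          else C (y ⟨j, Finset.mem_compl.2 h⟩)
        let T := (S.filter fun x => P I x).filter fun x => res x = y
        let z : (σ → K) → (ρ → K) := fun x i => x (e i)
        have hz : ∀ x ∈ T, (fun j => eval (z x) (f j)) = x := by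
          intro x hx
          funext j
          by_cases h : j ∈ I
          · simp [f, h, z]
          · have h1 := (Finset.mem_filter.1 hx).2
            have h2 := congrFun h1 ⟨j, Finset.mem_compl.2 h⟩
            simp only [f, h, dif_neg, not_false_eq_true, eval_C]
            exact h2.symm
        have hev : ∀ x ∈ T, ∀ p : MvPolynomial σ K, eval (z x) (bind₁ f p) = eval x p := by
          intro x hx p
          have h1 := eval₂Hom_bind₁ (RingHom.id K) (z x) f p
          have h2 := hz x hx
          change eval (z x) (bind₁ f p) = eval (fun j => eval (z x) (f j)) p at h1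
          rw [h1, h2]
        have hinjz : Set.InjOn z (T : Set (σ → K)) := by
          intro x hx x' hx' hxx
          rw [← hz x hx, ← hz x' hx', hxx]
        change T.card ≤ _
        rw [← Finset.card_image_of_injOn hinjz]
        refine bezout (fun i => bind₁ f (F i)) _ D
          (fun i => (totalDegree_bind₁_le f ?_ _).trans (hD i)) ?_ ?_
        · intro j
          by_cases h : j ∈ I
          · simp [f, h]
          · simp [f, h]
        · intro w hw i
          obtain ⟨x, hx, rfl⟩ := Finset.mem_image.1 hw
          rw [hev x hx]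
          exact h0 x (Finset.mem_filter.1 (Finset.mem_filter.1 hx).1).1 i
        · intro w hw
          obtain ⟨x, hx, rfl⟩ := Finset.mem_image.1 hw
          obtain ⟨_, hI', hd⟩ := (Finset.mem_filter.1 (Finset.mem_filter.1 hx).1)
          have hM : (Matrix.of fun i k => eval (z x) (pderiv k (bind₁ f (F i))))
              = ((J x).submatrix (fun j => (e j : σ)) id).transpose := by
            ext i k
            simp only [Matrix.of_apply, Matrix.transpose_apply, Matrix.submatrix_apply, id, J]
            rw [pderiv_bind₁, map_sum, Finset.sum_eq_single (e k : σ)]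
            · rw [map_mul, hev x hx]
              simp [f]
            · intro j _ hj
              rw [map_mul]
              by_cases h : j ∈ I
              · have : e.symm ⟨j, h⟩ ≠ k := by
                  intro hk
                  apply hj
                  rw [← hk]; simp
                simp [f, h, pderiv_X_of_ne this]
              · simp [f, h]
            · simp
          rw [hM, Matrix.det_transpose]
          exact hd
      · have hc : Fintype.card ↥(Iᶜ : Finset σ) = Fintype.card σ - Fintype.card ρ := by
          rw [Fintype.card_coe, Finset.card_compl, hI]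
        rw [Finset.card_univ, Fintype.card_fun, hc]
    · have : (S.filter fun x => P I x) = ∅ := by
        rw [Finset.filter_eq_empty_iff]
        rintro x _ ⟨h, _⟩
        exact hI h
      rw [this]; simp
  refine (Finset.sum_le_sum this).trans (le_of_eq ?_)
  simp [mul_assoc]

end surj

end Pool.Agent.H20.WF.Bez
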