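import Pool.Agent.H20.WF.Bez2

open MvPolynomial

namespace Pool.Agent.H20.WF.Cal

set_option linter.unusedSectionVars false

variable {σ K A : Type*} [Fintype σ] [DecidableEq σ] [Field K] [CommRing A] [Algebra K A]

/-- value of an `A`-valued polynomial at a `K`-point -/
noncomputable def ev (x : σ → K) : MvPolynomial σ A →ₐ[A] A :=
  MvPolynomial.aeval fun j => algebraMap K A (x j)

/-- directional derivative at a `K`-point -/
noncomputable def dd (x h : σ → K) (P : MvPolynomial σ A) : A :=
  ∑ j, h j • ev x (pderiv j P)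

/-- apply a functional to the coefficients -/
noncomputable def fmap (φ : A →ₗ[K] K) (P : MvPolynomial σ A) : MvPolynomial σ K :=
  ∑ m ∈ P.support, monomial m (φ (coeff m P))

@[simp] lemma ev_C (x : σ → K) (a : A) : ev x (C a) = a := by simp [ev]
@[simp] lemma ev_X (x : σ → K) (j : σ) : ev x (X j : MvPolynomial σ A) = algebraMap K A (x j) := by
  simp [ev]

@[simp] lemma dd_C (x h : σ → K) (a : A) : dd x h (C a) = 0 := by simp [dd]
lemma dd_add (x h : σ → K) (P Q : MvPolynomial σ A) : dd x h (P + Q) = dd x h P + dd x h Q := by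
  simp [dd, Finset.sum_add_distrib]
lemma dd_sub (x h : σ → K) (P Q : MvPolynomial σ A) : dd x h (P - Q) = dd x h P - dd x h Q := by
  simp only [dd, map_sub, smul_sub, Finset.sum_sub_distrib]
lemma dd_sum {ι : Type*} (s : Finset ι) (x h : σ → K) (P : ι → MvPolynomial σ A) :
    dd x h (∑ i ∈ s, P i) = ∑ i ∈ s, dd x h (P i) := by
  simp only [dd, map_sum, Finset.smul_sum]
  exact Finset.sum_comm
lemma dd_mul (x h : σ → K) (P Q : MvPolynomial σ A) :
    dd x h (P * Q) = dd x h P * ev x Q + ev x P * dd x h Q := by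
  simp only [dd, pderiv_mul, map_add, map_mul, smul_add, Finset.sum_add_distrib, Finset.sum_mul,
    Finset.mul_sum, smul_mul_assoc, mul_smul_comm]
lemma dd_X (x h : σ → K) (j : σ) : dd x h (X j : MvPolynomial σ A) = algebraMap K A (h j) := by
  rw [dd, Finset.sum_eq_single j]
  · rw [pderiv_X_self, map_one, Algebra.algebraMap_eq_smul_one]
  · intro i _ hi; rw [pderiv_X_of_ne (Ne.symm hi), map_zero, smul_zero]
  · simp
lemma dd_C_mul (x h : σ → K) (a : A) (P : MvPolynomial σ A) :
    dd x h (C a * P) = a * dd x h P := by rw [dd_mul]; simp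
lemma dd_pow (x h : σ → K) (P : MvPolynomial σ A) (k : ℕ) :
    dd x h (P ^ k) = k * ev x P ^ (k - 1) * dd x h P := by
  induction k with
  | zero => rw [pow_zero, ← C_1, dd_C]; simp
  | succ k ih =>
    rw [pow_succ, dd_mul, ih, map_pow]
    rcases Nat.eq_zero_or_pos k with hk | hk
    · subst hk; simp
    · have : ev x P ^ k = ev x P ^ (k - 1) * ev x P := by
        rw [← pow_succ]; congr 1; omega
      rw [Nat.add_sub_cancel, this]; push_cast; ring

lemma coeff_fmap (φ : A →ₗ[K] K) (P : MvPolynomial σ A) (m : σ →₀ ℕ) :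
    coeff m (fmap φ P) = φ (coeff m P) := by
  classical
  rw [fmap, coeff_sum]
  simp only [coeff_monomial]
  rw [Finset.sum_ite_eq']
  split_ifs with h
  · rfl
  · rw [notMem_support_iff.1 h, map_zero]

lemma totalDegree_fmap (φ : A →ₗ[K] K) (P : MvPolynomial σ A) :
    (fmap φ P).totalDegree ≤ P.totalDegree := by
  refine totalDegree_finsetSum_le fun m hm => ?_
  refine (totalDegree_monomial_le _ _).trans (le_totalDegree hm)

lemma fmap_add (φ : A →ₗ[K] K) (P Q : MvPolynomial σ A) :
    fmap φ (P + Q) = fmap φ P + fmap φ Q := by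
  ext m; simp [coeff_fmap]

lemma fmap_monomial (φ : A →ₗ[K] K) (m : σ →₀ ℕ) (a : A) :
    fmap φ (monomial m a) = monomial m (φ a) := by
  classical
  ext n; rw [coeff_fmap, coeff_monomial, coeff_monomial]
  split_ifs <;> simp

lemma eval_fmap (φ : A →ₗ[K] K) (x : σ → K) (P : MvPolynomial σ A) :
    eval x (fmap φ P) = φ (ev x P) := by
  induction P using MvPolynomial.induction_on' with
  | monomial m a =>
    rw [fmap_monomial, eval_monomial, ev, aeval_monomial]
    have : (m.prod fun i k => (algebraMap K A (x i)) ^ k)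
        = algebraMap K A (m.prod fun i k => x i ^ k) := by
      simp [Finsupp.prod, map_prod]
    rw [this]
    change φ a * _ = φ (a * _)
    rw [mul_comm a, ← Algebra.smul_def, map_smul, smul_eq_mul, mul_comm]
  | add P Q hP hQ => rw [fmap_add, map_add, map_add, hP, hQ, map_add]

lemma pderiv_fmap (φ : A →ₗ[K] K) (j : σ) (P : MvPolynomial σ A) :
    pderiv j (fmap φ P) = fmap φ (pderiv j P) := by
  induction P using MvPolynomial.induction_on' with
  | monomial m a =>
    rw [fmap_monomial, pderiv_monomial, pderiv_monomial, fmap_monomial]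
    congr 1
    rw [← nsmul_eq_mul', ← nsmul_eq_mul', map_nsmul]
  | add P Q hP hQ => rw [fmap_add, map_add, map_add, hP, hQ, fmap_add]

lemma sum_pderiv_fmap (φ : A →ₗ[K] K) (x h : σ → K) (P : MvPolynomial σ A) :
    ∑ j, eval x (pderiv j (fmap φ P)) * h j = φ (dd x h P) := by
  simp only [dd, map_sum, map_smul, pderiv_fmap, eval_fmap, smul_eq_mul]
  exact Finset.sum_congr rfl fun _ _ => mul_comm _ _

/-- **(1a)** for `A`-valued polynomial maps: the equations are `φ i (P i (x)) = 0`. -/
theorem bezout_inj_alg {ρ : Type*} [Fintype ρ] (φ : ρ → A →ₗ[K] K) (P : ρ → MvPolynomial σ A)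
    (S : Finset (σ → K)) (D : ℕ) (hD : ∀ i, (P i).totalDegree ≤ D)
    (h0 : ∀ x ∈ S, ∀ i, φ i (ev x (P i)) = 0)
    (hinj : ∀ x ∈ S, ∀ h : σ → K, (∀ i, φ i (dd x h (P i)) = 0) → h = 0) :
    S.card ≤ 2 ^ Fintype.card ρ * D ^ Fintype.card σ := by
  classical
  refine Bez.bezout_inj (fun i => fmap (φ i) (P i)) S D
    (fun i => (totalDegree_fmap _ _).trans (hD i)) ?_ ?_
  · intro x hx i; rw [eval_fmap]; exact h0 x hx i
  · intro x hx h hh
    refine hinj x hx h fun i => ?_
    rw [← sum_pderiv_fmap]; exact hh i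

/-- **(1b)** for `A`-valued polynomial maps. -/
theorem bezout_surj_alg [Fintype K] {ρ : Type*} [Fintype ρ] (φ : ρ → A →ₗ[K] K)
    (P : ρ → MvPolynomial σ A)
    (S : Finset (σ → K)) (D : ℕ) (hD : ∀ i, (P i).totalDegree ≤ D)
    (h0 : ∀ x ∈ S, ∀ i, φ i (ev x (P i)) = 0)
    (hsurj : ∀ x ∈ S, ∀ c : ρ → K, (∀ h : σ → K, ∑ i, c i * φ i (dd x h (P i)) = 0) → c = 0) :
    S.card ≤ 2 ^ Fintype.card σ * D ^ Fintype.card ρ
      * Fintype.card K ^ (Fintype.card σ - Fintype.card ρ) := by
  classical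
  refine Bez.bezout_surj (fun i => fmap (φ i) (P i)) S D
    (fun i => (totalDegree_fmap _ _).trans (hD i)) ?_ ?_
  · intro x hx i; rw [eval_fmap]; exact h0 x hx i
  · intro x hx c hc
    refine hsurj x hx c fun h => ?_
    have : ∀ i, c i * φ i (dd x h (P i)) = ∑ j, h j * (c i * eval x (pderiv j (fmap (φ i) (P i)))) := by
      intro i
      rw [← sum_pderiv_fmap, Finset.mul_sum]
      exact Finset.sum_congr rfl fun _ _ => by ring
    rw [Finset.sum_congr rfl fun i _ => this i, Finset.sum_comm]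
    refine Finset.sum_eq_zero fun j _ => ?_
    rw [← Finset.mul_sum, hc j, mul_zero]

end Pool.Agent.H20.WF.Cal
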