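import Pool.Agent.H20.WF.Reg

open Polynomial

namespace Pool.Agent.H20.WF.Min

set_option linter.unusedSectionVars false

variable {K : Type*} [Field K]

/-- `G` annihilates the functional `L` on polynomials of degree `< N`. -/
def Ann (N : ℕ) (L : K[X] →ₗ[K] K) (G : K[X]) : Prop :=
  ∀ j, j + G.natDegree < N → L (G * X ^ j) = 0

/-- from monomials to all polynomials -/
lemma apply_eq_zero (L : K[X] →ₗ[K] K) (G : K[X]) (b : ℕ) (h : ∀ j, j < b → L (G * X ^ j) = 0)
    (f : K[X]) (hf : f.degree < (b : ℕ)) : L (G * f) = 0 := by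
  rcases eq_or_ne f 0 with h0 | h0
  · rw [h0, mul_zero, map_zero]
  rw [f.as_sum_range' b ((natDegree_lt_iff_degree_lt h0).2 hf)]
  rw [Finset.mul_sum, map_sum]
  refine Finset.sum_eq_zero fun j hj => ?_
  rw [← C_mul_X_pow_eq_monomial, ← mul_assoc, mul_comm G, mul_assoc, ← smul_eq_C_mul, map_smul,
    h j (Finset.mem_range.1 hj), smul_zero]

lemma Ann.apply {N : ℕ} {L : K[X] →ₗ[K] K} {G : K[X]} (h : Ann N L G) (f : K[X])
    (hf : f.degree < (N - G.natDegree : ℕ)) : L (G * f) = 0 :=
  apply_eq_zero L G (N - G.natDegree) (fun j hj => h j (by omega)) f hf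

/-- **Merging.** -/
lemma merge (L : K[X] →ₗ[K] K) (G0 u w : K[X]) (hu : u ≠ 0) (hcop : IsCoprime u w) (M a b : ℕ)
    (hG : ∀ f : K[X], f.degree < a → L (G0 * u * f) = 0)
    (hH : ∀ f : K[X], f.degree < b → L (G0 * w * f) = 0)
    (ha : M ≤ a + u.natDegree) (hb : u.natDegree ≤ b) (hw : w.natDegree + u.natDegree ≤ M)
    (f : K[X]) (hf : f.degree < M) : L (G0 * f) = 0 := by
  obtain ⟨α, β, hαβ⟩ := hcop
  -- f = u f1 + w f2
  set f2 := (f * β) % u with hf2
  set f1 := f * α + w * ((f * β) / u) with hf1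
  have h1 : f = u * f1 + w * f2 := by
    have h2 := EuclideanDomain.div_add_mod (f * β) u
    calc f = f * (α * u + β * w) := by rw [hαβ, mul_one]
      _ = f * α * u + w * (f * β) := by ring
      _ = f * α * u + w * (u * (f * β / u) + f * β % u) := by rw [h2]
      _ = _ := by rw [hf1, hf2]; ring
  have hd2 : f2.degree < u.degree := EuclideanDomain.mod_lt _ hu
  have hd2' : f2.degree < (u.natDegree : ℕ) := by rwa [degree_eq_natDegree hu] at hd2
  have h3 : (w * f2).degree < (M : ℕ) := by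
    rcases eq_or_ne (w * f2) 0 with h | h
    · rw [h, degree_zero]; exact WithBot.bot_lt_coe _
    · have hw0 : w ≠ 0 := left_ne_zero_of_mul h
      have hf0 : f2 ≠ 0 := right_ne_zero_of_mul h
      rw [← natDegree_lt_iff_degree_lt h, natDegree_mul hw0 hf0]
      have := (natDegree_lt_iff_degree_lt hf0).2 hd2'
      omega
  have h4 : (u * f1).degree < (M : ℕ) := by
    have : u * f1 = f - w * f2 := by rw [h1]; ring
    rw [this]
    exact (degree_sub_le _ _).trans_lt (max_lt hf h3)
  have h5 : f1.degree < (a : ℕ) := by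
    rcases eq_or_ne f1 0 with h | h
    · rw [h, degree_zero]; exact WithBot.bot_lt_coe _
    · have h6 : u * f1 ≠ 0 := mul_ne_zero hu h
      rw [← natDegree_lt_iff_degree_lt h6, natDegree_mul hu h] at h4
      rw [← natDegree_lt_iff_degree_lt h]
      omega
  have h6 : f2.degree < (b : ℕ) := hd2'.trans_le (by exact_mod_cast hb)
  rw [h1, mul_add, map_add, ← mul_assoc, ← mul_assoc, hG f1 h5, hH f2 h6, add_zero]

end Pool.Agent.H20.WF.Min
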