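import Pool.Agent.H20.WF.Cal

open Polynomial

namespace Pool.Agent.H20.WF.Reg

set_option linter.unusedSectionVars false

variable {K : Type*} [Field K]

/-- the monic polynomial `t^n + ∑_{j<n} x_j t^j` -/
noncomputable def mon {n : ℕ} (x : Fin n → K) : K[X] := X ^ n + ∑ j : Fin n, C (x j) * X ^ (j : ℕ)

/-- the polynomial `∑_{j<n} x_j t^j` -/
noncomputable def low {n : ℕ} (x : Fin n → K) : K[X] := ∑ j : Fin n, C (x j) * X ^ (j : ℕ)

/-- generic monic polynomial in the block `ι` of variables -/
noncomputable def gen {ι : Type*} {n : ℕ} (i : ι) : MvPolynomial (ι × Fin n) K[X] :=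
  MvPolynomial.C (X ^ n) + ∑ j : Fin n, MvPolynomial.C (X ^ (j : ℕ)) * MvPolynomial.X (i, j)

variable {ι : Type*} [Fintype ι] [DecidableEq ι] {n : ℕ}

lemma ev_gen (i : ι) (x : ι × Fin n → K) :
    Cal.ev x (gen i : MvPolynomial (ι × Fin n) K[X]) = mon fun j => x (i, j) := by
  rw [gen, mon, map_add, Cal.ev_C, map_sum]
  congr 1
  refine Finset.sum_congr rfl fun j _ => ?_
  rw [map_mul, Cal.ev_C, Cal.ev_X, mul_comm]; rfl

lemma dd_gen (i : ι) (x h : ι × Fin n → K) :
    Cal.dd x h (gen i : MvPolynomial (ι × Fin n) K[X]) = low fun j => h (i, j) := by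
  rw [gen, Cal.dd_add, Cal.dd_C, zero_add, Cal.dd_sum, low]
  refine Finset.sum_congr rfl fun j _ => ?_
  rw [Cal.dd_C_mul, Cal.dd_X, mul_comm]; rfl

lemma totalDegree_gen (i : ι) :
    (gen i : MvPolynomial (ι × Fin n) K[X]).totalDegree ≤ 1 := by
  refine (MvPolynomial.totalDegree_add _ _).trans (max_le ?_ ?_)
  · rw [MvPolynomial.totalDegree_C]; exact Nat.zero_le _
  · refine MvPolynomial.totalDegree_finsetSum_le fun j _ => ?_
    refine (MvPolynomial.totalDegree_mul _ _).trans ?_
    rw [MvPolynomial.totalDegree_C, zero_add]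
    exact (MvPolynomial.totalDegree_X _).le

/-- **Regular solutions.** -/
theorem card_regular [Fintype K] (k : ℕ) (hk : (k : K) ≠ 0) (e : ι → K) (he : ∀ i, e i ≠ 0)
    (N : K[X]) (S : Finset (ι × Fin n → K))
    (hS : ∀ x ∈ S, ∑ i, C (e i) * (mon fun j => x (i, j)) ^ k = N)
    (hreg : ∀ x ∈ S, ∀ c : Fin (k * n) → K, (∀ i, ∀ h : Fin n → K,
      ∑ l, c l * ((mon fun j => x (i, j)) ^ (k - 1) * low h).coeff l = 0) → c = 0) :
    S.card ≤ 2 ^ (Fintype.card ι * n) * k ^ (k * n) * Fintype.card K ^ (Fintype.card ι * n - k * n) := by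
  have := Cal.bezout_surj_alg (σ := ι × Fin n) (A := K[X]) (ρ := Fin (k * n))
    (fun l => Polynomial.lcoeff K l)
    (fun _ => ∑ i, MvPolynomial.C (C (e i)) * gen i ^ k - MvPolynomial.C N) S k ?_ ?_ ?_
  · simpa using this
  · intro _
    refine (MvPolynomial.totalDegree_sub _ _).trans (max_le ?_ ?_)
    · refine MvPolynomial.totalDegree_finsetSum_le fun j _ => ?_
      refine (MvPolynomial.totalDegree_mul _ _).trans ?_
      rw [MvPolynomial.totalDegree_C, zero_add]
      refine (MvPolynomial.totalDegree_pow _ _).trans ?_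
      exact (Nat.mul_le_mul_left _ (totalDegree_gen j)).trans (by simp)
    · simp
  · intro x hx l
    have h1 := hS x hx
    simp only [map_sub, map_sum, map_mul, map_pow, Cal.ev_C, ev_gen]
    rw [sub_eq_zero, ← map_sum, h1]
  · intro x hx c hc
    refine hreg x hx c fun i h => ?_
    let h' : ι × Fin n → K := fun p => if p.1 = i then (e i * k)⁻¹ * h p.2 else 0
    have h2 := hc h'
    have h3 : Cal.dd x h' (∑ i, MvPolynomial.C (C (e i)) * gen i ^ k - MvPolynomial.C N)
        = (mon fun j => x (i, j)) ^ (k - 1) * low h := by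
      rw [Cal.dd_sub, Cal.dd_C, sub_zero, Cal.dd_sum, Finset.sum_eq_single i]
      · rw [Cal.dd_C_mul, Cal.dd_pow, ev_gen, dd_gen]
        have : (low fun j => h' (i, j)) = C ((e i * k)⁻¹) * low h := by
          rw [low, low, Finset.mul_sum]
          refine Finset.sum_congr rfl fun j _ => ?_
          simp only [h', if_true, map_mul]; ring
        rw [this]
        have h4 : C (e i) * (k : K[X]) * C ((e i * k)⁻¹) = 1 := by
          have h5 : ((k : ℕ) : K[X]) = C (k : K) := by simp
          rw [h5, ← C_mul, ← C_mul, mul_inv_cancel₀ (mul_ne_zero (he i) hk), C_1]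
        calc _ = (C (e i) * (k : K[X]) * C ((e i * k)⁻¹)) * ((mon fun j => x (i, j)) ^ (k - 1) * low h) := by
              ring
          _ = _ := by rw [h4, one_mul]
      · intro i' _ hi'
        rw [Cal.dd_C_mul, Cal.dd_pow, dd_gen]
        have : (low fun j => h' (i', j)) = 0 := by
          rw [low]
          refine Finset.sum_eq_zero fun j _ => ?_
          simp [h', hi']
        rw [this, mul_zero, mul_zero]
      · simp
    rw [h3] at h2
    exact h2

end Pool.Agent.H20.WF.Reg
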